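import Pool.Agent.Helper13.BA.Tool

/-! Packet INT (B18): interpolation with `L^2`. -/

open Complex MeasureTheory Set Filter Topology
open scoped ContDiff ENNReal

namespace Pool.Agent.Helper13.BA

open Pool.Agent.Helper28.BA

noncomputable section

variable {f g : ℂ → ℂ}

theorem dz_cc (hf : ContDiff ℝ 1 f) (hs : HasCompactSupport f) :
    Continuous (dz f) ∧ HasCompactSupport (dz f) := by
  have h1 : Continuous (fderiv ℝ f) := hf.continuous_fderiv one_ne_zero
  have h2 : HasCompactSupport (fderiv ℝ f) := hs.fderiv ℝ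
  constructor
  · unfold dz
    fun_prop
  · exact h2.comp_left (g := fun L : ℂ →L[ℝ] ℂ => (1 / 2 : ℂ) * (L 1 - I * L I)) (by simp)

theorem db_cc (hf : ContDiff ℝ 1 f) (hs : HasCompactSupport f) :
    Continuous (db f) ∧ HasCompactSupport (db f) := by
  have h1 : Continuous (fderiv ℝ f) := hf.continuous_fderiv one_ne_zero
  have h2 : HasCompactSupport (fderiv ℝ f) := hs.fderiv ℝ
  constructor
  · unfold db
    fun_prop
  · exact h2.comp_left (g := fun L : ℂ →L[ℝ] ℂ => (1 / 2 : ℂ) * (L 1 + I * L I)) (by simp)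

theorem dz_nice (hf : ContDiff ℝ 1 f) (hs : HasCompactSupport f) : Nice (dz f) :=
  Nice.of_cc (dz_cc hf hs).1 (dz_cc hf hs).2

theorem db_nice (hf : ContDiff ℝ 1 f) (hs : HasCompactSupport f) : Nice (db f) :=
  Nice.of_cc (db_cc hf hs).1 (db_cc hf hs).2

theorem dz_sub (hf : ContDiff ℝ 1 f) (hg : ContDiff ℝ 1 g) (z : ℂ) :
    dz (fun z => f z - g z) z = dz f z - dz g z := by
  unfold dz
  rw [fderiv_fun_sub (hf.differentiable one_ne_zero z) (hg.differentiable one_ne_zero z)]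
  simp only [sub_apply]
  ring

theorem db_sub (hf : ContDiff ℝ 1 f) (hg : ContDiff ℝ 1 g) (z : ℂ) :
    db (fun z => f z - g z) z = db f z - db g z := by
  unfold db
  rw [fderiv_fun_sub (hf.differentiable one_ne_zero z) (hg.differentiable one_ne_zero z)]
  simp only [sub_apply]
  ring

theorem fderiv_lin {n : ℕ} {G : Fin n → ℂ → ℂ} (hG : ∀ j, ContDiff ℝ 1 (G j)) (x : Fin n → ℂ)
    (z v : ℂ) : fderiv ℝ (fun z => ∑ j, x j * G j z) z v = ∑ j, x j * fderiv ℝ (G j) z v := by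
  rw [fderiv_fun_sum (fun j _ => ((hG j).differentiable one_ne_zero z).const_mul _)]
  rw [sum_apply]
  refine Finset.sum_congr rfl fun j _ => ?_
  rw [fderiv_const_mul ((hG j).differentiable one_ne_zero z)]
  rfl

theorem dz_lin {n : ℕ} {G : Fin n → ℂ → ℂ} (hG : ∀ j, ContDiff ℝ 1 (G j)) (x : Fin n → ℂ)
    (z : ℂ) : dz (fun z => ∑ j, x j * G j z) z = ∑ j, x j * dz (G j) z := by
  unfold dz
  rw [fderiv_lin hG, fderiv_lin hG, Finset.mul_sum, ← Finset.sum_sub_distrib, Finset.mul_sum]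
  exact Finset.sum_congr rfl fun j _ => by ring

theorem db_lin {n : ℕ} {G : Fin n → ℂ → ℂ} (hG : ∀ j, ContDiff ℝ 1 (G j)) (x : Fin n → ℂ)
    (z : ℂ) : db (fun z => ∑ j, x j * G j z) z = ∑ j, x j * db (G j) z := by
  unfold db
  rw [fderiv_lin hG, fderiv_lin hG, Finset.mul_sum, ← Finset.sum_add_distrib, Finset.mul_sum]
  exact Finset.sum_congr rfl fun j _ => by ring

theorem lin_contDiff {n : ℕ} {G : Fin n → ℂ → ℂ} (hG : ∀ j, ContDiff ℝ 1 (G j))
    (x : Fin n → ℂ) : ContDiff ℝ 1 (fun z => ∑ j, x j * G j z) :=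
  ContDiff.sum fun j _ => contDiff_const.mul (hG j)

theorem lin_compact {n : ℕ} {G : Fin n → ℂ → ℂ} (hG : ∀ j, HasCompactSupport (G j))
    (x : Fin n → ℂ) : HasCompactSupport (fun z => ∑ j, x j * G j z) := by
  have key : IsCompact (⋃ j, tsupport (G j)) := isCompact_iUnion fun j => hG j
  refine HasCompactSupport.intro key fun z hz => ?_
  refine Finset.sum_eq_zero fun j _ => ?_
  have h1 : z ∉ tsupport (G j) := fun h => hz (mem_iUnion.2 ⟨j, h⟩)
  rw [image_eq_zero_of_notMem_tsupport h1, mul_zero]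

theorem nrm_db_two (h4 : S_DET) (hf : ContDiff ℝ 1 f) (hs : HasCompactSupport f) :
    nrm 2 (db f) = nrm 2 (dz f) := by
  have hL : ∃ K, LipschitzWith K f := hf.lipschitzWith_of_hasCompactSupport hs one_ne_zero
  have h := h4 f hL hs
  have i1 : Integrable (fun z => ‖dz f z‖ ^ 2) :=
    (memLp_two_iff_integrable_sq_norm (dz_nice hf hs 2).1).1 (dz_nice hf hs 2)
  have i2 : Integrable (fun z => ‖db f z‖ ^ 2) :=
    (memLp_two_iff_integrable_sq_norm (db_nice hf hs 2).1).1 (db_nice hf hs 2)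
  rw [integral_sub i1 i2, sub_eq_zero] at h
  unfold nrm
  simp_rw [Real.rpow_two]
  rw [h]

theorem nrm_db_le {r N : ℝ} (hr : 0 < r) (hN : 0 < N) (hB : Bd r N) (hf : ContDiff ℝ 1 f)
    (hs : HasCompactSupport f) : nrm r (db f) ≤ N * nrm r (dz f) := by
  have h := hB f hf hs
  unfold nrm
  refine (Real.rpow_le_rpow (integral_nonneg fun _ => Real.rpow_nonneg (norm_nonneg _) _) h
    (by positivity)).trans ?_
  rw [Real.mul_rpow (Real.rpow_nonneg hN.le _)
    (integral_nonneg fun _ => Real.rpow_nonneg (norm_nonneg _) _), ← Real.rpow_mul hN.le,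
    mul_one_div_cancel hr.ne', Real.rpow_one]

/-- Coefficients are bounded by the norm. -/
theorem coeff_le {n : ℕ} {μ : Fin n → ℝ} (hμ : ∀ j, 0 < μ j) (x : Fin n → ℂ) {p : ℝ}
    (hp : 0 < p) (j : Fin n) :
    ‖x j‖ ≤ μ j ^ (-(1 / p)) * (∑ j, μ j * ‖x j‖ ^ p) ^ (1 / p) := by
  have h1 : μ j * ‖x j‖ ^ p ≤ ∑ j, μ j * ‖x j‖ ^ p :=
    Finset.single_le_sum (f := fun j => μ j * ‖x j‖ ^ p)
      (fun i _ => mul_nonneg (hμ i).le (Real.rpow_nonneg (norm_nonneg _) _)) (Finset.mem_univ j)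
  have h2 : (μ j * ‖x j‖ ^ p) ^ (1 / p) = μ j ^ (1 / p) * ‖x j‖ := by
    rw [Real.mul_rpow (hμ j).le (Real.rpow_nonneg (norm_nonneg _) _),
      ← Real.rpow_mul (norm_nonneg _), mul_one_div_cancel hp.ne', Real.rpow_one]
  have h3 : μ j ^ (1 / p) * ‖x j‖ ≤ (∑ j, μ j * ‖x j‖ ^ p) ^ (1 / p) := by
    rw [← h2]
    exact Real.rpow_le_rpow (mul_nonneg (hμ j).le (Real.rpow_nonneg (norm_nonneg _) _)) h1
      (by positivity)
  have h4 : μ j ^ (-(1 / p)) * (μ j ^ (1 / p) * ‖x j‖) = ‖x j‖ := by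
    rw [← mul_assoc, ← Real.rpow_add (hμ j)]
    simp
  rw [← h4]
  exact mul_le_mul_of_nonneg_left h3 (Real.rpow_nonneg (hμ j).le _)

/-- The bound for the matrix. -/
theorem bound_p {p p' M δ C η : ℝ} (hpp : p.HolderConjugate p') (hM : 0 ≤ M)
    {n m : ℕ} {E : Fin n → Set ℂ} {F : Fin m → Set ℂ} {G : Fin n → ℂ → ℂ}
    (hE1 : ∀ j, MeasurableSet (E j)) (hE2 : ∀ j, Bornology.IsBounded (E j))
    (hE3 : ∀ j, 0 < volume (E j)) (hE4 : ∀ i j, i ≠ j → Disjoint (E i) (E j))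
    (hF1 : ∀ j, MeasurableSet (F j)) (hF2 : ∀ j, Bornology.IsBounded (F j))
    (hF4 : ∀ i j, i ≠ j → Disjoint (F i) (F j))
    (hG1 : ∀ j, ContDiff ℝ 1 (G j)) (hG2 : ∀ j, HasCompactSupport (G j))
    (hG3 : ∀ j, nrm p (fun z => dz (G j) z - (E j).indicator (fun _ => 1) z) ≤ δ)
    (hδ : 0 ≤ δ) (hC : ∑ j, (volume (E j)).toReal ^ (-(1 / p)) ≤ C) (hCδ : δ * C ≤ η)
    (hbd : ∀ u : ℂ → ℂ, ContDiff ℝ 1 u → HasCompactSupport u → nrm p (db u) ≤ M * nrm p (dz u))
    (x : Fin n → ℂ) (y : Fin m → ℂ) :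
    ‖∫ z, db (fun z => ∑ j, x j * G j z) z * simp' F y z‖ ≤
      M * (1 + η) * (∑ j, (volume (E j)).toReal * ‖x j‖ ^ p) ^ (1 / p) *
        (∑ k, (volume (F k)).toReal * ‖y k‖ ^ p') ^ (1 / p') := by
  have hp : 1 < p := hpp.lt
  have hp0 : 0 < p := by linarith
  have hp'0 : 0 < p' := hpp.symm.pos
  have hμ : ∀ j, 0 < (volume (E j)).toReal := fun j =>
    ENNReal.toReal_pos (hE3 j).ne' (hE2 j).measure_lt_top.ne
  rw [← nrm_simp' hE1 hE2 hE4 x hp0, ← nrm_simp' hF1 hF2 hF4 y hp'0]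
  set u : ℂ → ℂ := fun z => ∑ j, x j * G j z with hu
  have hu1 : ContDiff ℝ 1 u := lin_contDiff hG1 x
  have hu2 : HasCompactSupport u := lin_compact hG2 x
  have hs : Nice (simp' E x) := simp'_nice hE1 hE2 x
  have ht : Nice (simp' F y) := simp'_nice hF1 hF2 y
  refine (holder hpp (db_nice hu1 hu2) ht).trans ?_
  refine mul_le_mul_of_nonneg_right ?_ (nrm_nonneg _ _)
  refine (hbd u hu1 hu2).trans ?_
  rw [mul_assoc]
  refine mul_le_mul_of_nonneg_left ?_ hM
  have h1 : nrm p (dz u) ≤ nrm p (simp' E x) + nrm p (fun z => dz u z - simp' E x z) :=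
    nrm_le_add_sub hp.le (dz_nice hu1 hu2) hs
  have h2 : (fun z => dz u z - simp' E x z) =
      fun z => ∑ j, x j * (dz (G j) z - (E j).indicator (fun _ => 1) z) := by
    ext z
    rw [hu, dz_lin hG1, simp', ← Finset.sum_sub_distrib]
    refine Finset.sum_congr rfl fun j _ => ?_
    by_cases h : z ∈ E j
    · rw [indicator_of_mem h, indicator_of_mem h]; ring
    · rw [indicator_of_notMem h, indicator_of_notMem h]; ring
  have h3 : nrm p (fun z => dz u z - simp' E x z) ≤ ∑ j, ‖x j‖ * δ := by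
    rw [h2]
    refine (nrm_sum_le hp.le (F := fun j z => x j * (dz (G j) z - (E j).indicator (fun _ => 1) z))
      (fun j => ((dz_nice (hG1 j) (hG2 j)).sub (Nice.ind (hE1 j) (hE2 j) 1)).const_mul _)).trans ?_
    refine Finset.sum_le_sum fun j _ => ?_
    rw [nrm_const_mul p hp0]
    exact mul_le_mul_of_nonneg_left (hG3 j) (norm_nonneg _)
  have h4 : ∑ j, ‖x j‖ * δ ≤ η * nrm p (simp' E x) := by
    rw [← Finset.sum_mul, nrm_simp' hE1 hE2 hE4 x hp0]
    set Z := (∑ j, (volume (E j)).toReal * ‖x j‖ ^ p) ^ (1 / p) with hZ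
    have hZ0 : 0 ≤ Z := Real.rpow_nonneg (Finset.sum_nonneg fun j _ =>
      mul_nonneg (hμ j).le (Real.rpow_nonneg (norm_nonneg _) _)) _
    have h5 : ∑ j, ‖x j‖ ≤ C * Z := by
      calc ∑ j, ‖x j‖ ≤ ∑ j, (volume (E j)).toReal ^ (-(1 / p)) * Z :=
            Finset.sum_le_sum fun j _ => coeff_le hμ x hp0 j
        _ = (∑ j, (volume (E j)).toReal ^ (-(1 / p))) * Z := by rw [Finset.sum_mul]
        _ ≤ C * Z := mul_le_mul_of_nonneg_right hC hZ0
    calc (∑ j, ‖x j‖) * δ ≤ (C * Z) * δ := mul_le_mul_of_nonneg_right h5 hδ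
      _ = (δ * C) * Z := by ring
      _ ≤ η * Z := mul_le_mul_of_nonneg_right hCδ hZ0
  linarith

/-- The bilinear form in coordinates. -/
theorem bilin {n m : ℕ} {F : Fin m → Set ℂ} {G : Fin n → ℂ → ℂ}
    (hF1 : ∀ j, MeasurableSet (F j)) (hF2 : ∀ j, Bornology.IsBounded (F j))
    (hG1 : ∀ j, ContDiff ℝ 1 (G j)) (hG2 : ∀ j, HasCompactSupport (G j))
    (x : Fin n → ℂ) (y : Fin m → ℂ) :
    ∫ z, db (fun z => ∑ j, x j * G j z) z * simp' F y z =
      ∑ j, ∑ k, (∫ z, db (G j) z * (F k).indicator (fun _ => 1) z) * x j * y k := by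
  have h1 : ∀ z, db (fun z => ∑ j, x j * G j z) z * simp' F y z =
      ∑ j, ∑ k, (x j * y k) * (db (G j) z * (F k).indicator (fun _ => 1) z) := by
    intro z
    rw [db_lin hG1, simp', Finset.sum_mul]
    refine Finset.sum_congr rfl fun j _ => ?_
    rw [Finset.mul_sum]
    refine Finset.sum_congr rfl fun k _ => ?_
    by_cases h : z ∈ F k
    · rw [indicator_of_mem h, indicator_of_mem h]; ring
    · rw [indicator_of_notMem h, indicator_of_notMem h]; ring
  simp_rw [h1]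
  have hi : ∀ j k, Integrable
      (fun z => (x j * y k) * (db (G j) z * (F k).indicator (fun _ => 1) z)) := fun j k =>
    ((db_nice (hG1 j) (hG2 j)).integrable_mul (Nice.ind (hF1 k) (hF2 k) 1)).const_mul _
  rw [integral_finsetSum _ (fun j _ => integrable_finsetSum _ fun k _ => hi j k)]
  refine Finset.sum_congr rfl fun j _ => ?_
  rw [integral_finsetSum _ (fun k _ => hi j k)]
  refine Finset.sum_congr rfl fun k _ => ?_
  rw [integral_const_mul]
  ring

/-- Smooth functions whose `dz` is near an indicator function. -/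
theorem dens_ind (h3 : S_DENS) {E : Set ℂ} (hE : MeasurableSet E) (hb : Bornology.IsBounded E)
    {p δ : ℝ} (hp : 1 < p) (hδ : 0 < δ) : ∃ G : ℂ → ℂ, ContDiff ℝ 1 G ∧ HasCompactSupport G ∧
      nrm p (fun z => dz G z - E.indicator (fun _ => 1) z) ≤ δ ∧
      nrm 2 (fun z => dz G z - E.indicator (fun _ => 1) z) ≤ δ := by
  obtain ⟨c, hc1, hc2, hc3, hc4⟩ := ind_approx hE hb hp one_lt_two (half_pos hδ)
  obtain ⟨G, hG1, hG2, hG3, hG4, -⟩ := h3 c hc1 hc2 p 2 2 (min ((δ / 2) ^ p) ((δ / 2) ^ (2 : ℝ)))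
    hp one_lt_two one_lt_two (lt_min (by positivity) (by positivity))
  have hG1' : ContDiff ℝ 1 G := hG1.of_le (by norm_num)
  have key : ∀ s : ℝ, 1 < s → nrm s (fun z => c z - E.indicator (fun _ => 1) z) ≤ δ / 2 →
      ∫ z, ‖dz G z - c z‖ ^ s ≤ (δ / 2) ^ s →
      nrm s (fun z => dz G z - E.indicator (fun _ => 1) z) ≤ δ := by
    intro s hs h1 h2
    have h5 := nrm_le_of_integral_le (F := fun z => dz G z - c z) (by linarith : 0 < s)
      (half_pos hδ).le h2
    have h6 := nrm_add_le hs.le ((dz_nice hG1' hG2).sub (Nice.of_cc hc1 hc2))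
      ((Nice.of_cc hc1 hc2).sub (Nice.ind hE hb 1))
    simp only [sub_add_sub_cancel] at h6
    linarith
  exact ⟨G, hG1', hG2, key p hp hc3 (hG3.trans (min_le_left _ _)),
    key 2 one_lt_two hc4 (hG4.trans (min_le_right _ _))⟩

/-- Interpolation for simple functions. -/
theorem claimB (h1 : S_RT1) (h3 : S_DENS) (h4 : S_DET) {r q N : ℝ} (hr : 1 < r) (hrq : r ≤ q)
    (hq : q < 2) (hN : 0 < N) (hB : Bd r N) {n m : ℕ} {E : Fin n → Set ℂ} {F : Fin m → Set ℂ}
    (hE1 : ∀ j, MeasurableSet (E j)) (hE2 : ∀ j, Bornology.IsBounded (E j))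
    (hE3 : ∀ j, 0 < volume (E j)) (hE4 : ∀ i j, i ≠ j → Disjoint (E i) (E j))
    (hF1 : ∀ j, MeasurableSet (F j)) (hF2 : ∀ j, Bornology.IsBounded (F j))
    (hF3 : ∀ j, 0 < volume (F j)) (hF4 : ∀ i j, i ≠ j → Disjoint (F i) (F j))
    (x : Fin n → ℂ) (y : Fin m → ℂ) {η : ℝ} (hη : 0 < η) :
    ∃ g : ℂ → ℂ, ContDiff ℝ 1 g ∧ HasCompactSupport g ∧
      nrm 2 (fun z => dz g z - simp' E x z) ≤ η ∧
      ‖∫ z, db g z * simp' F y z‖ ≤ (1 + η) * N ^ ((1 / q - 1 / 2) / (1 / r - 1 / 2)) *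
        nrm q (simp' E x) * nrm (q / (q - 1)) (simp' F y) := by
  set C : ℝ := ∑ j, (volume (E j)).toReal ^ (-(1 / r)) +
    ∑ j, (volume (E j)).toReal ^ (-(1 / (2 : ℝ))) with hC
  have hμ : ∀ j, 0 < (volume (E j)).toReal := fun j =>
    ENNReal.toReal_pos (hE3 j).ne' (hE2 j).measure_lt_top.ne
  have hν : ∀ j, 0 < (volume (F j)).toReal := fun j =>
    ENNReal.toReal_pos (hF3 j).ne' (hF2 j).measure_lt_top.ne
  have hC1 : 0 ≤ ∑ j, (volume (E j)).toReal ^ (-(1 / r)) :=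
    Finset.sum_nonneg fun j _ => Real.rpow_nonneg (hμ j).le _
  have hC2 : 0 ≤ ∑ j, (volume (E j)).toReal ^ (-(1 / (2 : ℝ))) :=
    Finset.sum_nonneg fun j _ => Real.rpow_nonneg (hμ j).le _
  set X : ℝ := ∑ j, ‖x j‖ with hX
  have hX0 : 0 ≤ X := Finset.sum_nonneg fun j _ => norm_nonneg _
  have hC0 : 0 ≤ C := add_nonneg hC1 hC2
  set δ : ℝ := η / (1 + C + X) with hδ
  have hden : 0 < 1 + C + X := by positivity
  have hδ0 : 0 < δ := div_pos hη hden
  have hδ1 : δ * (1 + C + X) = η := div_mul_cancel₀ _ hden.ne'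
  have hδC : δ * C ≤ η := by
    rw [← hδ1]; exact mul_le_mul_of_nonneg_left (by linarith) hδ0.le
  have hδX : δ * X ≤ η := by
    rw [← hδ1]; exact mul_le_mul_of_nonneg_left (by linarith) hδ0.le
  choose G hG1 hG2 hG3 hG4 using fun j => dens_ind h3 (hE1 j) (hE2 j) hr hδ0
  have hr0 : 0 < r := by linarith
  have hrr : r.HolderConjugate (r / (r - 1)) := Real.HolderConjugate.conjExponent hr
  have h22 : (2 : ℝ).HolderConjugate 2 := Real.holderConjugate_iff.2 ⟨by norm_num, by norm_num⟩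
  have hq0 : 0 < q := by linarith
  have hq1 : 0 < q - 1 := by linarith
  have hr1 : 0 < r - 1 := by linarith
  refine ⟨fun z => ∑ j, x j * G j z, lin_contDiff hG1 x, lin_compact hG2 x, ?_, ?_⟩
  · have h2 : (fun z => dz (fun z => ∑ j, x j * G j z) z - simp' E x z) =
        fun z => ∑ j, x j * (dz (G j) z - (E j).indicator (fun _ => 1) z) := by
      ext z
      rw [dz_lin hG1, simp', ← Finset.sum_sub_distrib]
      refine Finset.sum_congr rfl fun j _ => ?_
      by_cases h : z ∈ E j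
      · rw [indicator_of_mem h, indicator_of_mem h]; ring
      · rw [indicator_of_notMem h, indicator_of_notMem h]; ring
    rw [h2]
    refine (nrm_sum_le one_le_two
      (F := fun j z => x j * (dz (G j) z - (E j).indicator (fun _ => 1) z))
      (fun j => ((dz_nice (hG1 j) (hG2 j)).sub (Nice.ind (hE1 j) (hE2 j) 1)).const_mul _)).trans ?_
    refine (Finset.sum_le_sum (g := fun j => ‖x j‖ * δ) fun j _ => ?_).trans ?_
    · rw [nrm_const_mul 2 two_pos]
      exact mul_le_mul_of_nonneg_left (hG4 j) (norm_nonneg _)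
    · rw [← Finset.sum_mul, mul_comm]
      exact hδX
  · rw [bilin hF1 hF2 hG1 hG2, nrm_simp' hE1 hE2 hE4 x hq0,
      nrm_simp' hF1 hF2 hF4 y (div_pos hq0 hq1)]
    set θ : ℝ := (1 / q - 1 / 2) / (1 / r - 1 / 2) with hθ
    have hr2 : 0 < 1 / r - 1 / 2 := by
      rw [sub_pos]; exact one_div_lt_one_div_of_lt hr0 (by linarith)
    have hq2 : 0 < 1 / q - 1 / 2 := by
      rw [sub_pos]; exact one_div_lt_one_div_of_lt hq0 hq
    have hθ0 : 0 ≤ θ := (div_pos hq2 hr2).le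
    have hθ1 : θ ≤ 1 := by
      rw [hθ, div_le_one hr2]
      have := one_div_le_one_div_of_le hr0 hrq
      linarith
    have hθ2 : θ * (1 / r - 1 / 2) = 1 / q - 1 / 2 := div_mul_cancel₀ _ hr2.ne'
    have hrc : 1 / (r / (r - 1)) = 1 - 1 / r := by field_simp
    have hqc : 1 / (q / (q - 1)) = 1 - 1 / q := by field_simp
    have hM : (1 + η) ^ (1 - θ) * (N * (1 + η)) ^ θ = (1 + η) * N ^ θ := by
      have he : (0 : ℝ) < 1 + η := by linarith
      rw [Real.mul_rpow hN.le he.le]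
      have : (1 + η) ^ (1 - θ) * (N ^ θ * (1 + η) ^ θ) =
          ((1 + η) ^ (1 - θ) * (1 + η) ^ θ) * N ^ θ := by ring
      rw [this, ← Real.rpow_add he]
      simp
    rw [← hM]
    refine h1 n m (fun j k => ∫ z, db (G j) z * (F k).indicator (fun _ => 1) z)
      (fun j => (volume (E j)).toReal) (fun k => (volume (F k)).toReal) hμ hν 2 r 2 (r / (r - 1))
      (1 + η) (N * (1 + η)) θ q (q / (q - 1)) one_lt_two hr one_lt_two ?_ (by linarith)
      (mul_pos hN (by linarith)) hθ0 hθ1 ?_ ?_ ?_ ?_ x y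
    · rw [one_lt_div hr1]; linarith
    · have : (1 - θ) / 2 + θ / r = 1 / 2 + θ * (1 / r - 1 / 2) := by ring
      rw [this, hθ2]; ring
    · rw [hqc]
      have h5 : (1 - θ) / 2 + θ / (r / (r - 1)) = (1 - θ) / 2 + θ * (1 / (r / (r - 1))) := by ring
      rw [h5, hrc]
      have h6 : (1 - θ) / 2 + θ * (1 - 1 / r) = 1 / 2 - θ * (1 / r - 1 / 2) := by ring
      rw [h6, hθ2]; ring
    · intro x' y'
      rw [← bilin hF1 hF2 hG1 hG2]
      have := bound_p (M := 1) (η := η) (C := C) h22 zero_le_one hE1 hE2 hE3 hE4 hF1 hF2 hF4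
        hG1 hG2 hG4 hδ0.le (by linarith) hδC
        (fun u hu1 hu2 => by rw [one_mul]; exact (nrm_db_two h4 hu1 hu2).le) x' y'
      rw [one_mul] at this
      exact this
    · intro x' y'
      rw [← bilin hF1 hF2 hG1 hG2]
      exact bound_p (M := N) (η := η) (C := C) hrr hN.le hE1 hE2 hE3 hE4 hF1 hF2 hF4
        hG1 hG2 hG3 hδ0.le (by linarith) hδC
        (fun u hu1 hu2 => nrm_db_le hr0 hN hB hu1 hu2) x' y'

/-- Simple approximation in norm. -/
theorem simp_approx (h2 : S_SIMP) {h : ℂ → ℂ} (hc : Continuous h) (hs : HasCompactSupport h)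
    {p η : ℝ} (hp : 1 < p) (hη : 0 < η) : ∃ (n : ℕ) (E : Fin n → Set ℂ) (x : Fin n → ℂ),
      (∀ j, MeasurableSet (E j)) ∧ (∀ j, Bornology.IsBounded (E j)) ∧ (∀ j, 0 < volume (E j)) ∧
      (∀ i j, i ≠ j → Disjoint (E i) (E j)) ∧ nrm p (fun z => simp' E x z - h z) ≤ η ∧
      nrm 2 (fun z => simp' E x z - h z) ≤ η := by
  obtain ⟨n, E, x, a1, a2, a3, a4, a5, a6, -⟩ := h2 h hc hs p 2 2
    (min (η ^ p) (η ^ (2 : ℝ))) hp one_lt_two one_lt_two (lt_min (by positivity) (by positivity))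
  exact ⟨n, E, x, a1, a2, a3, a4,
    nrm_le_of_integral_le (by linarith) hη.le (a5.trans (min_le_left _ _)),
    nrm_le_of_integral_le two_pos hη.le (a6.trans (min_le_right _ _))⟩

theorem claimA (h1 : S_RT1) (h2 : S_SIMP) (h3 : S_DENS) (h4 : S_DET) {r q N : ℝ} (hr : 1 < r)
    (hrq : r ≤ q) (hq : q < 2) (hN : 0 < N) (hB : Bd r N) (hf : ContDiff ℝ 1 f)
    (hs : HasCompactSupport f) {h : ℂ → ℂ} (hc : Continuous h) (hh : HasCompactSupport h) :
    ‖∫ z, db f z * h z‖ ≤ N ^ ((1 / q - 1 / 2) / (1 / r - 1 / 2)) * nrm q (dz f) *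
      nrm (q / (q - 1)) h := by
  set θ : ℝ := (1 / q - 1 / 2) / (1 / r - 1 / 2) with hθ
  have hq1 : 1 < q := by linarith
  have hq0 : 0 < q - 1 := by linarith
  have hq' : 1 < q / (q - 1) := by rw [one_lt_div hq0]; linarith
  have hNh := Nice.of_cc hc hh
  have hND := dz_nice hf hs
  have hNB := db_nice hf hs
  have h22 : (2 : ℝ).HolderConjugate 2 := Real.holderConjugate_iff.2 ⟨by norm_num, by norm_num⟩
  let Φ : ℝ → ℝ := fun η => 2 * η * nrm 2 h + (nrm 2 (dz f) + 2 * η) * η +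
    (1 + η) * N ^ θ * (nrm q (dz f) + η) * (nrm (q / (q - 1)) h + η)
  have hΦc : Continuous Φ := by
    change Continuous fun η => 2 * η * nrm 2 h + (nrm 2 (dz f) + 2 * η) * η +
      (1 + η) * N ^ θ * (nrm q (dz f) + η) * (nrm (q / (q - 1)) h + η)
    fun_prop
  have key : ∀ η : ℝ, 0 < η → ‖∫ z, db f z * h z‖ ≤ Φ η := by
    intro η hη
    obtain ⟨n, E, x, a1, a2, a3, a4, a5, a6⟩ :=
      simp_approx h2 (dz_cc hf hs).1 (dz_cc hf hs).2 hq1 hη
    obtain ⟨m, F, y, b1, b2, b3, b4, b5, b6⟩ := simp_approx h2 hc hh hq' hη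
    obtain ⟨g, hg1, hg2, hg3, hg4⟩ := claimB h1 h3 h4 hr hrq hq hN hB a1 a2 a3 a4 b1 b2 b3 b4
      x y hη
    have hNs := simp'_nice a1 a2 x
    have hNt := simp'_nice b1 b2 y
    have hNg := db_nice hg1 hg2
    have hNdg := dz_nice hg1 hg2
    have hfg1 : ContDiff ℝ 1 (fun z => f z - g z) := hf.sub hg1
    have hfg2 : HasCompactSupport (fun z => f z - g z) := hs.sub hg2
    have s1 : ∫ z, (db (fun z => f z - g z) z * h z + db g z * (h z - simp' F y z)) =
        (∫ z, db (fun z => f z - g z) z * h z) + ∫ z, db g z * (h z - simp' F y z) :=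
      integral_add ((db_nice hfg1 hfg2).integrable_mul hNh) (hNg.integrable_mul (hNh.sub hNt))
    have s2 : ∫ z, ((db (fun z => f z - g z) z * h z + db g z * (h z - simp' F y z)) +
          db g z * simp' F y z) =
        (∫ z, (db (fun z => f z - g z) z * h z + db g z * (h z - simp' F y z))) +
          ∫ z, db g z * simp' F y z :=
      integral_add (((db_nice hfg1 hfg2).integrable_mul hNh).add
        (hNg.integrable_mul (hNh.sub hNt))) (hNg.integrable_mul hNt)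
    have e1 : ∫ z, db f z * h z = (∫ z, db (fun z => f z - g z) z * h z) +
        (∫ z, db g z * (h z - simp' F y z)) + ∫ z, db g z * simp' F y z := by
      rw [← s1, ← s2]
      refine integral_congr_ae (Eventually.of_forall fun z => ?_)
      simp only
      rw [db_sub hf hg1]
      ring
    have n1 : nrm 2 (dz (fun z => f z - g z)) ≤ 2 * η := by
      have i1 : (dz (fun z => f z - g z)) =
          fun z => (dz f z - simp' E x z) + (simp' E x z - dz g z) := by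
        ext z; rw [dz_sub hf hg1]; ring
      rw [i1]
      have i2 := nrm_add_le one_le_two (hND.sub hNs) (hNs.sub hNdg)
      rw [nrm_sub_comm 2 (dz f) (simp' E x), nrm_sub_comm 2 (simp' E x) (dz g)] at i2
      linarith
    have n2 : nrm 2 (dz g) ≤ nrm 2 (dz f) + 2 * η := by
      have i1 := nrm_le_add_sub one_le_two hNdg hND
      rw [nrm_sub_comm] at i1
      have i2 : nrm 2 (fun z => dz f z - dz g z) ≤ 2 * η := by
        have : (fun z => dz f z - dz g z) = dz (fun z => f z - g z) := by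
          ext z; rw [dz_sub hf hg1]
        rw [this]; exact n1
      linarith
    have c1 : ‖∫ z, db (fun z => f z - g z) z * h z‖ ≤ 2 * η * nrm 2 h := by
      refine (holder h22 (db_nice hfg1 hfg2) hNh).trans ?_
      rw [nrm_db_two h4 hfg1 hfg2]
      exact mul_le_mul_of_nonneg_right n1 (nrm_nonneg _ _)
    have c2 : ‖∫ z, db g z * (h z - simp' F y z)‖ ≤ (nrm 2 (dz f) + 2 * η) * η := by
      refine (holder h22 hNg (hNh.sub hNt)).trans ?_
      rw [nrm_db_two h4 hg1 hg2, nrm_sub_comm]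
      exact mul_le_mul n2 b6 (nrm_nonneg _ _) (by have := nrm_nonneg 2 (dz f); linarith)
    have c3 : ‖∫ z, db g z * simp' F y z‖ ≤
        (1 + η) * N ^ θ * (nrm q (dz f) + η) * (nrm (q / (q - 1)) h + η) := by
      refine hg4.trans ?_
      have i1 := nrm_le_add_sub hq1.le hNs hND
      have i2 := nrm_le_add_sub hq'.le hNt hNh
      have hNθ : 0 ≤ N ^ θ := Real.rpow_nonneg hN.le _
      have j1 : nrm q (simp' E x) ≤ nrm q (dz f) + η := by linarith
      have j2 : nrm (q / (q - 1)) (simp' F y) ≤ nrm (q / (q - 1)) h + η := by linarith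
      have j3 := nrm_nonneg q (dz f)
      refine mul_le_mul (mul_le_mul_of_nonneg_left j1 (by positivity)) j2 (nrm_nonneg _ _)
        (by positivity)
    rw [e1]
    refine (norm_add₃_le).trans ?_
    change _ ≤ 2 * η * nrm 2 h + (nrm 2 (dz f) + 2 * η) * η +
      (1 + η) * N ^ θ * (nrm q (dz f) + η) * (nrm (q / (q - 1)) h + η)
    linarith
  have hlim : Tendsto Φ (𝓝[>] 0) (𝓝 (Φ 0)) := (hΦc.tendsto 0).mono_left nhdsWithin_le_nhds
  have hfin := ge_of_tendsto hlim (eventually_nhdsWithin_of_forall fun η hη => key η hη)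
  have hΦ0 : Φ 0 = N ^ θ * nrm q (dz f) * nrm (q / (q - 1)) h := by
    change 2 * 0 * nrm 2 h + (nrm 2 (dz f) + 2 * 0) * 0 +
      (1 + 0) * N ^ θ * (nrm q (dz f) + 0) * (nrm (q / (q - 1)) h + 0) = _
    ring
  rw [hΦ0] at hfin
  exact hfin

theorem INT (h1 : S_RT1) (h2 : S_SIMP) (h3 : S_DENS) (h4 : S_DET) : S_INT := by
  intro r q N hr hrq hq hN hB f hf hs
  set θ : ℝ := (1 / q - 1 / 2) / (1 / r - 1 / 2) with hθ
  have hq1 : 1 < q := by linarith
  have hq0 : 0 < q - 1 := by linarith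
  have hqp : 0 < q := by linarith
  set I : ℝ := ∫ z, ‖db f z‖ ^ q with hI
  have hI0 : 0 ≤ I := integral_nonneg fun _ => Real.rpow_nonneg (norm_nonneg _) _
  have hD0 : 0 ≤ ∫ z, ‖dz f z‖ ^ q := integral_nonneg fun _ => Real.rpow_nonneg (norm_nonneg _) _
  have hNθ : 0 ≤ N ^ θ := Real.rpow_nonneg hN.le _
  rcases hI0.eq_or_lt with hI1 | hI1
  · rw [← hI1]
    positivity
  let ψ : ℂ → ℂ := fun w => if w = 0 then 0 else (starRingEnd ℂ) w * ((‖w‖ ^ (q - 2) : ℝ) : ℂ)
  have hψn : ∀ w, ‖ψ w‖ = ‖w‖ ^ (q - 1) := by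
    intro w
    by_cases hw : w = 0
    · subst hw
      simp [ψ, Real.zero_rpow hq0.ne']
    · simp only [ψ, if_neg hw]
      rw [norm_mul, RCLike.norm_conj, Complex.norm_real, Real.norm_eq_abs,
        abs_of_nonneg (Real.rpow_nonneg (norm_nonneg _) _)]
      nth_rw 1 [← Real.rpow_one ‖w‖]
      rw [← Real.rpow_add (norm_pos_iff.2 hw)]
      congr 1
      ring
  have hψm : ∀ w, w * ψ w = ((‖w‖ ^ q : ℝ) : ℂ) := by
    intro w
    by_cases hw : w = 0
    · subst hw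
      simp [ψ, Real.zero_rpow hqp.ne']
    · simp only [ψ, if_neg hw]
      rw [← mul_assoc, Complex.mul_conj, ← Complex.ofReal_mul, Complex.normSq_eq_norm_sq]
      congr 1
      rw [← Real.rpow_two, ← Real.rpow_add (norm_pos_iff.2 hw)]
      congr 1
      ring
  have hψc : Continuous ψ := by
    rw [continuous_iff_continuousAt]
    intro w
    by_cases hw : w = 0
    · subst hw
      have h0 : ψ 0 = 0 := by simp [ψ]
      rw [ContinuousAt, h0, tendsto_zero_iff_norm_tendsto_zero]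
      simp_rw [hψn]
      have : Tendsto (fun x : ℂ => ‖x‖ ^ (q - 1)) (𝓝 0) (𝓝 (‖(0 : ℂ)‖ ^ (q - 1))) :=
        (continuous_norm.rpow_const fun _ => Or.inr hq0.le).tendsto 0
      rwa [norm_zero, Real.zero_rpow hq0.ne'] at this
    · have h1 : (fun w : ℂ => (starRingEnd ℂ) w * ((‖w‖ ^ (q - 2) : ℝ) : ℂ)) =ᶠ[𝓝 w] ψ := by
        filter_upwards [isOpen_ne.mem_nhds hw] with v hv
        simp only [ψ, if_neg hv]
      refine ContinuousAt.congr ?_ h1
      refine (Complex.continuous_conj.continuousAt).mul ?_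
      refine Complex.continuous_ofReal.continuousAt.comp ?_
      exact (continuous_norm.continuousAt).rpow_const (Or.inl (norm_ne_zero_iff.2 hw))
  have hψ0 : ψ 0 = 0 := by simp [ψ]
  obtain ⟨hb1, hb2⟩ := db_cc hf hs
  have hc : Continuous fun z => ψ (db f z) := hψc.comp hb1
  have hh : HasCompactSupport fun z => ψ (db f z) := hb2.comp_left hψ0
  have hA := claimA h1 h2 h3 h4 hr hrq hq hN hB hf hs hc hh
  have e1 : ∫ z, db f z * ψ (db f z) = (I : ℂ) := by
    simp_rw [hψm]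
    exact integral_ofReal (𝕜 := ℂ)
  have e2 : nrm (q / (q - 1)) (fun z => ψ (db f z)) = I ^ (1 - 1 / q) := by
    unfold nrm
    have : ∀ z, ‖ψ (db f z)‖ ^ (q / (q - 1)) = ‖db f z‖ ^ q := by
      intro z
      rw [hψn, ← Real.rpow_mul (norm_nonneg _)]
      congr 1
      field_simp
    simp_rw [this]
    congr 1
    field_simp
  rw [e1, e2, Complex.norm_real, Real.norm_eq_abs, abs_of_nonneg hI0, ← hθ] at hA
  have h5 : I ^ (1 / q) ≤ N ^ θ * nrm q (dz f) := by
    have h6 : I ^ (1 - 1 / q) * I ^ (1 / q) = I := by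
      rw [← Real.rpow_add hI1]; simp
    have h7 : 0 < I ^ (1 - 1 / q) := Real.rpow_pos_of_pos hI1 _
    have h8 : I ^ (1 - 1 / q) * I ^ (1 / q) ≤ I ^ (1 - 1 / q) * (N ^ θ * nrm q (dz f)) := by
      rw [h6]
      calc I ≤ N ^ θ * nrm q (dz f) * I ^ (1 - 1 / q) := hA
        _ = I ^ (1 - 1 / q) * (N ^ θ * nrm q (dz f)) := by ring
    exact le_of_mul_le_mul_left h8 h7
  have h9 := Real.rpow_le_rpow (Real.rpow_nonneg hI0 _) h5 hqp.le
  rw [← Real.rpow_mul hI0, one_div_mul_cancel hqp.ne', Real.rpow_one,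
    Real.mul_rpow hNθ (nrm_nonneg _ _)] at h9
  refine h9.trans (le_of_eq ?_)
  congr 1
  rw [nrm, ← Real.rpow_mul hD0, one_div_mul_cancel hqp.ne', Real.rpow_one]

end

end Pool.Agent.Helper13.BA
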