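import Pool.Agent.Helper28.BA.GoalsA
import Pool.Agent.Helper28.BA.GoalsB

/-! Tools for the interpolation packet. -/

open Complex MeasureTheory Set Filter Topology
open scoped ContDiff ENNReal

namespace Pool.Agent.Helper13.BA

open Pool.Agent.Helper28.BA

noncomputable section

/-- The norm in `L^p`. -/
def nrm (p : ℝ) (F : ℂ → ℂ) : ℝ := (∫ z, ‖F z‖ ^ p) ^ (1 / p)

/-- Functions in all `L^p`. -/
def Nice (F : ℂ → ℂ) : Prop := ∀ p : ℝ≥0∞, MemLp F p volume

theorem Nice.of_cc {F : ℂ → ℂ} (hc : Continuous F) (hs : HasCompactSupport F) : Nice F :=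
  fun _ => hc.memLp_of_hasCompactSupport hs

theorem Nice.add {F H : ℂ → ℂ} (hF : Nice F) (hH : Nice H) : Nice (fun z => F z + H z) :=
  fun p => (hF p).add (hH p)

theorem Nice.sub {F H : ℂ → ℂ} (hF : Nice F) (hH : Nice H) : Nice (fun z => F z - H z) :=
  fun p => (hF p).sub (hH p)

theorem Nice.const_mul {F : ℂ → ℂ} (hF : Nice F) (c : ℂ) : Nice (fun z => c * F z) :=
  fun p => (hF p).const_mul c

theorem Nice.sum {n : ℕ} {F : Fin n → ℂ → ℂ} (hF : ∀ j, Nice (F j)) :
    Nice (fun z => ∑ j, F j z) := fun p => by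
  have := memLp_finsetSum (μ := volume) (p := p) Finset.univ (f := F) (fun j _ => hF j p)
  simpa using this

theorem Nice.ind {E : Set ℂ} (hE : MeasurableSet E) (hb : Bornology.IsBounded E) (c : ℂ) :
    Nice (E.indicator fun _ => c) := fun p =>
  memLp_indicator_const p hE c (Or.inr hb.measure_lt_top.ne)

theorem Nice.integrable_mul {F H : ℂ → ℂ} (hF : Nice F) (hH : Nice H) :
    Integrable (fun z => F z * H z) := by
  have := (hF 2).integrable_mul (hH 2)
  exact this

theorem nrm_nonneg (p : ℝ) (F : ℂ → ℂ) : 0 ≤ nrm p F :=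
  Real.rpow_nonneg (integral_nonneg fun _ => Real.rpow_nonneg (norm_nonneg _) _) _

theorem nrm_eq {p : ℝ} (hp : 0 < p) {F : ℂ → ℂ} (hF : Nice F) :
    nrm p F = (eLpNorm F (ENNReal.ofReal p) volume).toReal := by
  rw [MemLp.eLpNorm_eq_integral_rpow_norm (by simpa using hp) ENNReal.ofReal_ne_top (hF _),
    ENNReal.toReal_ofReal hp.le, ENNReal.toReal_ofReal, nrm, one_div]
  exact Real.rpow_nonneg (integral_nonneg fun _ => Real.rpow_nonneg (norm_nonneg _) _) _

theorem nrm_add_le {p : ℝ} (hp : 1 ≤ p) {F H : ℂ → ℂ} (hF : Nice F) (hH : Nice H) :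
    nrm p (fun z => F z + H z) ≤ nrm p F + nrm p H := by
  have h0 : 0 < p := by linarith
  rw [nrm_eq h0 hF, nrm_eq h0 hH, nrm_eq h0 (hF.add hH), ← ENNReal.toReal_add
    (hF _).eLpNorm_ne_top (hH _).eLpNorm_ne_top]
  refine ENNReal.toReal_mono (ENNReal.add_ne_top.2 ⟨(hF _).eLpNorm_ne_top, (hH _).eLpNorm_ne_top⟩) ?_
  exact eLpNorm_add_le (hF 1).1 (hH 1).1 (by
    rw [← ENNReal.ofReal_one]; exact ENNReal.ofReal_le_ofReal hp)

theorem nrm_const_mul (p : ℝ) (hp : 0 < p) (c : ℂ) (F : ℂ → ℂ) :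
    nrm p (fun z => c * F z) = ‖c‖ * nrm p F := by
  unfold nrm
  have : (fun z => ‖c * F z‖ ^ p) = fun z => ‖c‖ ^ p * ‖F z‖ ^ p := by
    ext z
    rw [norm_mul, Real.mul_rpow (norm_nonneg _) (norm_nonneg _)]
  rw [this, integral_const_mul, Real.mul_rpow (Real.rpow_nonneg (norm_nonneg _) _)
    (integral_nonneg fun _ => Real.rpow_nonneg (norm_nonneg _) _), ← Real.rpow_mul (norm_nonneg _),
    mul_one_div_cancel hp.ne', Real.rpow_one]

theorem nrm_neg (p : ℝ) (F : ℂ → ℂ) : nrm p (fun z => - F z) = nrm p F := by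
  unfold nrm; simp

theorem nrm_sub_comm (p : ℝ) (F H : ℂ → ℂ) :
    nrm p (fun z => F z - H z) = nrm p (fun z => H z - F z) := by
  unfold nrm
  simp_rw [norm_sub_rev]

theorem nrm_le_add_sub {p : ℝ} (hp : 1 ≤ p) {F H : ℂ → ℂ} (hF : Nice F) (hH : Nice H) :
    nrm p F ≤ nrm p H + nrm p (fun z => F z - H z) := by
  have := nrm_add_le hp hH (hF.sub hH)
  simpa using this

theorem nrm_sum_le {p : ℝ} (hp : 1 ≤ p) {n : ℕ} {F : Fin n → ℂ → ℂ} (hF : ∀ j, Nice (F j)) :
    nrm p (fun z => ∑ j, F j z) ≤ ∑ j, nrm p (F j) := by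
  induction n with
  | zero =>
    simp only [Finset.univ_eq_empty, Finset.sum_empty]
    unfold nrm
    have h0 : 0 < p := by linarith
    simp [Real.zero_rpow h0.ne', Real.zero_rpow (inv_ne_zero h0.ne')]
  | succ n ih =>
    simp only [Fin.sum_univ_succ]
    refine (nrm_add_le hp (hF 0) (Nice.sum fun j => hF j.succ)).trans ?_
    have := ih (F := fun j => F j.succ) (fun j => hF j.succ)
    linarith

theorem nrm_le_of_integral_le {p η : ℝ} (hp : 0 < p) (hη : 0 ≤ η) {F : ℂ → ℂ}
    (h : ∫ z, ‖F z‖ ^ p ≤ η ^ p) : nrm p F ≤ η := by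
  unfold nrm
  refine (Real.rpow_le_rpow (integral_nonneg fun _ => Real.rpow_nonneg (norm_nonneg _) _) h
    (by positivity)).trans ?_
  rw [← Real.rpow_mul hη, mul_one_div_cancel hp.ne', Real.rpow_one]

theorem holder {p q : ℝ} (hpq : p.HolderConjugate q) {F H : ℂ → ℂ} (hF : Nice F) (hH : Nice H) :
    ‖∫ z, F z * H z‖ ≤ nrm p F * nrm q H := by
  refine (norm_integral_le_integral_norm _).trans ?_
  simp_rw [norm_mul]
  exact integral_mul_norm_le_Lp_mul_Lq hpq (hF _) (hH _)

/-! Simple functions. -/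

/-- A simple function. -/
def simp' {n : ℕ} (E : Fin n → Set ℂ) (x : Fin n → ℂ) (z : ℂ) : ℂ :=
  ∑ j, (E j).indicator (fun _ => x j) z

theorem simp'_nice {n : ℕ} {E : Fin n → Set ℂ} (hE : ∀ j, MeasurableSet (E j))
    (hb : ∀ j, Bornology.IsBounded (E j)) (x : Fin n → ℂ) : Nice (simp' E x) :=
  Nice.sum fun j => Nice.ind (hE j) (hb j) (x j)

theorem simp'_norm {n : ℕ} {E : Fin n → Set ℂ} (hd : ∀ i j, i ≠ j → Disjoint (E i) (E j))
    (x : Fin n → ℂ) {p : ℝ} (hp : 0 < p) (z : ℂ) :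
    ‖simp' E x z‖ ^ p = ∑ j, (E j).indicator (fun _ => ‖x j‖ ^ p) z := by
  classical
  by_cases h : ∃ i, z ∈ E i
  · obtain ⟨i, hi⟩ := h
    have h1 : ∀ j, j ≠ i → z ∉ E j := fun j hj hz => (hd j i hj).le_bot ⟨hz, hi⟩
    have h2 : simp' E x z = x i := by
      unfold simp'
      rw [Finset.sum_eq_single i]
      · exact indicator_of_mem hi _
      · intro j _ hj; exact indicator_of_notMem (h1 j hj) _
      · simp
    rw [h2, Finset.sum_eq_single i]
    · rw [indicator_of_mem hi]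
    · intro j _ hj; exact indicator_of_notMem (h1 j hj) _
    · simp
  · push Not at h
    have h2 : simp' E x z = 0 := Finset.sum_eq_zero fun j _ => indicator_of_notMem (h j) _
    rw [h2, norm_zero, Real.zero_rpow hp.ne']
    exact (Finset.sum_eq_zero fun j _ => indicator_of_notMem (h j) _).symm

theorem simp'_integral {n : ℕ} {E : Fin n → Set ℂ} (hE : ∀ j, MeasurableSet (E j))
    (hb : ∀ j, Bornology.IsBounded (E j)) (hd : ∀ i j, i ≠ j → Disjoint (E i) (E j))
    (x : Fin n → ℂ) {p : ℝ} (hp : 0 < p) :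
    ∫ z, ‖simp' E x z‖ ^ p = ∑ j, (volume (E j)).toReal * ‖x j‖ ^ p := by
  simp_rw [simp'_norm hd x hp]
  rw [integral_finsetSum]
  · refine Finset.sum_congr rfl fun j _ => ?_
    rw [integral_indicator_const _ (hE j), smul_eq_mul]
    rfl
  · intro j _
    exact (integrable_indicator_iff (hE j)).2 (integrableOn_const (hb j).measure_lt_top.ne)

theorem nrm_simp' {n : ℕ} {E : Fin n → Set ℂ} (hE : ∀ j, MeasurableSet (E j))
    (hb : ∀ j, Bornology.IsBounded (E j)) (hd : ∀ i j, i ≠ j → Disjoint (E i) (E j))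
    (x : Fin n → ℂ) {p : ℝ} (hp : 0 < p) :
    nrm p (simp' E x) = (∑ j, (volume (E j)).toReal * ‖x j‖ ^ p) ^ (1 / p) := by
  rw [nrm, simp'_integral hE hb hd x hp]

/-- Approximation of an indicator function. -/
theorem ind_approx {E : Set ℂ} (hE : MeasurableSet E) (hb : Bornology.IsBounded E) {p₁ p₂ η : ℝ}
    (h₁ : 1 < p₁) (h₂ : 1 < p₂) (hη : 0 < η) : ∃ c : ℂ → ℂ, Continuous c ∧ HasCompactSupport c ∧
      nrm p₁ (fun z => c z - E.indicator (fun _ => 1) z) ≤ η ∧
      nrm p₂ (fun z => c z - E.indicator (fun _ => 1) z) ≤ η := by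
  set κ : ℝ := min (η ^ p₁) (η ^ p₂) with hκ
  have hκ0 : 0 < κ := lt_min (Real.rpow_pos_of_pos hη _) (Real.rpow_pos_of_pos hη _)
  have hE0 : volume E ≠ ⊤ := hb.measure_lt_top.ne
  obtain ⟨K, hKE, hK, hKm⟩ := hE.exists_isCompact_sdiff_lt hE0
    (ε := ENNReal.ofReal (κ / 2)) (by simpa using hκ0)
  obtain ⟨U, hUE, hU, _, hUm⟩ := hE.exists_isOpen_sdiff_lt hE0
    (ε := ENNReal.ofReal (κ / 2)) (by simpa using hκ0)
  obtain ⟨φ, hφ1, hφ2, hφ3, hφ4⟩ := exists_continuousMap_one_of_isCompact_subset_isOpen hK hU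
    (hKE.trans hUE)
  have hvol : (volume (U \ K)).toReal ≤ κ := by
    have h1 : volume (U \ K) ≤ ENNReal.ofReal κ := by
      calc volume (U \ K) ≤ volume ((U \ E) ∪ (E \ K)) := measure_mono (by
              intro z hz
              by_cases h : z ∈ E
              · exact Or.inr ⟨h, hz.2⟩
              · exact Or.inl ⟨hz.1, h⟩)
        _ ≤ volume (U \ E) + volume (E \ K) := measure_union_le _ _
        _ ≤ ENNReal.ofReal (κ / 2) + ENNReal.ofReal (κ / 2) := add_le_add hUm.le hKm.le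
        _ = ENNReal.ofReal κ := by
            rw [← ENNReal.ofReal_add (by positivity) (by positivity), add_halves]
    exact ENNReal.toReal_le_of_le_ofReal hκ0.le h1
  have hfin : volume (U \ K) ≠ ⊤ := by
    intro h
    have h1 : volume (U \ K) ≤ volume (U \ E) + volume (E \ K) := by
      refine (measure_mono ?_).trans (measure_union_le _ _)
      intro z hz
      by_cases h : z ∈ E
      · exact Or.inr ⟨h, hz.2⟩
      · exact Or.inl ⟨hz.1, h⟩
    rw [h] at h1
    have h2 := ENNReal.add_lt_top.2 ⟨hUm.trans ENNReal.ofReal_lt_top, hKm.trans ENNReal.ofReal_lt_top⟩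
    exact absurd h1 (not_le.2 h2)
  have hmeas : MeasurableSet (U \ K) := hU.measurableSet.diff hK.measurableSet
  have key : ∀ p : ℝ, 1 < p → ∫ z, ‖((φ z : ℝ) : ℂ) - E.indicator (fun _ => 1) z‖ ^ p ≤ κ := by
    intro p hp
    have hpt : ∀ z, ‖((φ z : ℝ) : ℂ) - E.indicator (fun _ => 1) z‖ ^ p
        ≤ (U \ K).indicator (fun _ => (1 : ℝ)) z := by
      intro z
      have h01 := hφ4 z
      by_cases hz : z ∈ U \ K
      · rw [indicator_of_mem hz]
        have hle : ‖((φ z : ℝ) : ℂ) - E.indicator (fun _ => 1) z‖ ≤ 1 := by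
          by_cases hzE : z ∈ E
          · rw [indicator_of_mem hzE, ← Complex.ofReal_one, ← Complex.ofReal_sub,
              Complex.norm_real, Real.norm_eq_abs, abs_le]
            constructor <;> linarith [h01.1, h01.2]
          · rw [indicator_of_notMem hzE, sub_zero, Complex.norm_real, Real.norm_eq_abs, abs_le]
            constructor <;> linarith [h01.1, h01.2]
        exact Real.rpow_le_one (norm_nonneg _) hle (by linarith)
      · rw [indicator_of_notMem hz]
        have h0 : ((φ z : ℝ) : ℂ) - E.indicator (fun _ => 1) z = 0 := by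
          by_cases hzK : z ∈ K
          · rw [indicator_of_mem (hKE hzK), hφ1 hzK]; simp
          · have hzU : z ∉ U := fun h => hz ⟨h, hzK⟩
            rw [indicator_of_notMem (fun h => hzU (hUE h)),
              image_eq_zero_of_notMem_tsupport (fun h => hzU (hφ3 h))]
            simp
        rw [h0, norm_zero, Real.zero_rpow (by linarith)]
    calc ∫ z, ‖((φ z : ℝ) : ℂ) - E.indicator (fun _ => 1) z‖ ^ p
        ≤ ∫ z, (U \ K).indicator (fun _ => (1 : ℝ)) z := by
          refine integral_mono_of_nonneg (Eventually.of_forall fun z =>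
            Real.rpow_nonneg (norm_nonneg _) _) ?_ (Eventually.of_forall hpt)
          exact (integrable_indicator_iff hmeas).2 (integrableOn_const hfin)
      _ = (volume (U \ K)).toReal := by
          rw [integral_indicator_const _ hmeas, smul_eq_mul, mul_one]; rfl
      _ ≤ κ := hvol
  refine ⟨fun z => ((φ z : ℝ) : ℂ), Complex.continuous_ofReal.comp φ.continuous, ?_, ?_, ?_⟩
  · exact HasCompactSupport.comp_left (g := fun t : ℝ => (t : ℂ)) hφ2 (by simp)
  · exact nrm_le_of_integral_le (by linarith) hη.le ((key p₁ h₁).trans (min_le_left _ _))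
  · exact nrm_le_of_integral_le (by linarith) hη.le ((key p₂ h₂).trans (min_le_right _ _))

end

end Pool.Agent.Helper13.BA
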